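import Pool.Agent.LibPC42.W8

set_option autoImplicit false

namespace Pool.Agent.Results.MP_346600_al.AbelianByNilpotentTargets

open Pool.Agent.LibPF5

/-- Let `P` be a finitely generated group with the nilpotent quotients of a free group (for instance a finitely
generated parafree group), and let `L` be a residually torsion-free nilpotent group some term of whose lower central
series is abelian. Then every homomorphism `f : P → L` induces the zero map `H_2(P;Z) → H_2(L;Z)`. -/
theorem result (P : Type) [Group P] (hP : NilFree P) (hfg : Group.FG P) (L : Type) [Group L]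
    (hL : ∀ x : L, (∀ k, ∃ m : ℕ, 0 < m ∧ x ^ m ∈ (⊤ : Subgroup L).lowerCentralSeries k) → x = 1)
    (n : ℕ)
    (hab : ∀ x ∈ (⊤ : Subgroup L).lowerCentralSeries n, ∀ y ∈ (⊤ : Subgroup L).lowerCentralSeries n,
      x * y = y * x)
    (f : P →* L) (y : groupHomology (Rep.trivial ℤ P ℤ) 2) :
    (groupHomology.map f (CategoryTheory.CategoryStruct.id (Rep.trivial ℤ P ℤ)) 2 :
        groupHomology (Rep.trivial ℤ P ℤ) 2 ⟶ groupHomology (Rep.trivial ℤ L ℤ) 2) y = 0 :=
  Pool.Agent.LibPC42.thmC P hP hfg L hL n hab f y

end Pool.Agent.Results.MP_346600_al.AbelianByNilpotentTargets
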