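import Pool.Agent.LibPF5.Final

set_option autoImplicit false

namespace Pool.Agent.Results.MP_346600_al.DeepCycles

open Pool.Agent.LibPF5

/-- For every finitely generated parafree group `P` and every subgroup `M` which contains a term of the lower
central series of `P`, the inclusion induces a surjection `H_2(M;Z) → H_2(P;Z)`. -/
theorem result (P : Type) [Group P] (hP : IsParafree P) (hfg : Group.FG P) (M : Subgroup P) (m : ℕ)
    (hM : (⊤ : Subgroup P).lowerCentralSeries m ≤ M) :
    Function.Surjective
      (groupHomology.map M.subtype (CategoryTheory.CategoryStruct.id (Rep.trivial ℤ M ℤ)) 2 :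
        groupHomology (Rep.trivial ℤ M ℤ) 2 ⟶ groupHomology (Rep.trivial ℤ P ℤ) 2) :=
  thmA P hP.1 hfg M m hM

end Pool.Agent.Results.MP_346600_al.DeepCycles
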