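import Pool.Agent.LibPF5.Final

set_option autoImplicit false

namespace Pool.Agent.Results.MP_346600_al.Hierarchies

open Pool.Agent.LibPF5

/-- A finitely generated parafree group which has a hierarchy (of some level `n`) over groups with trivial second
homology has trivial second homology. -/
theorem result (P : Type) [Group P] (hP : IsParafree P) (hfg : Group.FG P) (n : ℕ)
    (h : Hier P n P (MonoidHom.id P)) :
    Subsingleton (groupHomology (Rep.trivial ℤ P ℤ) 2) :=
  thmB P hP.1 hfg n h

end Pool.Agent.Results.MP_346600_al.Hierarchies
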